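import Pool.Agent.W263.SP.Stm

set_option autoImplicit false

namespace Pool.Agent.W101.SP

open MeasureTheory Set Filter

theorem set_main : Pool.Agent.W263.SP.SET := by
  intro f r E EL C hC hf hE hEL hEq hr hlow hhigh ε hε
  obtain ⟨k0, hk0⟩ : ∃ k0 : ℝ, k0 = min 1 (Real.sqrt (ε / (48 * (C + 1)))) := ⟨_, rfl⟩
  have hC1 : 0 < C + 1 := by linarith
  have hq : 0 < ε / (48 * (C + 1)) := by positivity
  have hk0pos : 0 < k0 := by
    rw [hk0]
    exact lt_min one_pos (Real.sqrt_pos.2 hq)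
  have hk0sq : k0 ^ 2 ≤ ε / (48 * (C + 1)) := by
    have h1 : k0 ≤ Real.sqrt (ε / (48 * (C + 1))) := by
      rw [hk0]
      exact min_le_right _ _
    calc k0 ^ 2 ≤ (Real.sqrt (ε / (48 * (C + 1)))) ^ 2 := pow_le_pow_left₀ hk0pos.le h1 2
      _ = ε / (48 * (C + 1)) := Real.sq_sqrt hq.le
  refine ⟨k0 / 4, by positivity, ?_⟩
  obtain ⟨s, hs⟩ : ∃ s : ℝ → ℝ, s = fun U => Real.sqrt (U / Real.log U) := ⟨_, rfl⟩
  have hs0 : ∀ U, 0 ≤ s U := by
    intro U
    rw [hs]
    exact Real.sqrt_nonneg _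
  have hlog : ∀ᶠ U : ℝ in atTop, 1 ≤ Real.log U := Real.tendsto_log_atTop.eventually_ge_atTop 1
  have hssq : ∀ U, 1 ≤ U → 1 ≤ Real.log U → s U ^ 2 = U / Real.log U := by
    intro U hU hl
    rw [hs]
    exact Real.sq_sqrt (div_nonneg (by linarith) (by linarith))
  have hs4 : ∀ U, 1 ≤ U → 1 ≤ Real.log U → U ≤ 4 * s U ^ 4 := by
    intro U hU hl
    have hsp : 0 < Real.sqrt U := Real.sqrt_pos.2 (by linarith)
    have h1 : Real.log U ≤ 2 * Real.sqrt U := by
      have h2 : Real.log (Real.sqrt U) = Real.log U / 2 := Real.log_sqrt (by linarith)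
      have h3 : Real.log (Real.sqrt U) ≤ Real.sqrt U - 1 := Real.log_le_sub_one_of_pos hsp
      linarith
    have h4 : Real.sqrt U / 2 ≤ s U ^ 2 := by
      rw [hssq U hU hl, le_div_iff₀ (by linarith)]
      calc Real.sqrt U / 2 * Real.log U ≤ Real.sqrt U / 2 * (2 * Real.sqrt U) :=
            mul_le_mul_of_nonneg_left h1 (by positivity)
        _ = Real.sqrt U * Real.sqrt U := by ring
        _ = U := Real.mul_self_sqrt (by linarith)
    have h5 : (Real.sqrt U / 2) ^ 2 ≤ (s U ^ 2) ^ 2 := pow_le_pow_left₀ (by positivity) h4 2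
    have h6 : (Real.sqrt U) ^ 2 = U := Real.sq_sqrt (by linarith)
    have h7 : (Real.sqrt U / 2) ^ 2 = U / 4 := by
      rw [div_pow, h6]
      norm_num
    have h8 : (s U ^ 2) ^ 2 = s U ^ 4 := by ring
    rw [h7, h8] at h5
    linarith
  have hst : Tendsto s atTop atTop := by
    rw [tendsto_atTop]
    intro b
    filter_upwards [hlog, eventually_ge_atTop (max 1 (4 * (|b| + 1) ^ 4))] with U h1 h2
    by_contra hlt
    rw [not_le] at hlt
    have h3 := hs4 U (le_trans (le_max_left _ _) h2) h1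
    have h5 : s U ^ 4 < (|b| + 1) ^ 4 := by
      apply pow_lt_pow_left₀ _ (hs0 U) (by norm_num)
      have := le_abs_self b
      linarith
    have h6 := le_trans (le_max_right _ _) h2
    linarith
  have hr2 : ∀ᶠ u : ℝ in atTop, |r u / u| ≤ ε / 4 := by
    have h1 := (Metric.tendsto_nhds.1 hr) (ε / 4) (by positivity)
    filter_upwards [h1] with u hu
    rw [Real.dist_eq, sub_zero] at hu
    exact hu.le
  obtain ⟨u1, hu1⟩ := eventually_atTop.1 hr2
  have hexp : ∀ᶠ U : ℝ in atTop, 64 * C / ε ^ 2 * s U ^ 8 ≤ Real.exp (k0 / 4 * s U) := by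
    have hA : 0 < 64 * C / ε ^ 2 + 1 := by positivity
    have h1 := (isLittleO_pow_exp_pos_mul_atTop (k := 8) (b := k0 / 4) (by positivity)).bound
      (c := 1 / (64 * C / ε ^ 2 + 1)) (by positivity)
    filter_upwards [hst.eventually h1] with U hU
    rw [Real.norm_of_nonneg (pow_nonneg (hs0 U) 8), Real.norm_of_nonneg (Real.exp_pos _).le] at hU
    have h2 : (64 * C / ε ^ 2 + 1) * s U ^ 8 ≤ Real.exp (k0 / 4 * s U) := by
      calc (64 * C / ε ^ 2 + 1) * s U ^ 8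
          ≤ (64 * C / ε ^ 2 + 1) * (1 / (64 * C / ε ^ 2 + 1) * Real.exp (k0 / 4 * s U)) :=
            mul_le_mul_of_nonneg_left hU hA.le
        _ = Real.exp (k0 / 4 * s U) := by
            rw [← mul_assoc, mul_one_div_cancel hA.ne', one_mul]
    have h3 : 0 ≤ s U ^ 8 := pow_nonneg (hs0 U) 8
    linarith
  filter_upwards [hlog, hexp, hst.eventually_ge_atTop (1 / k0),
    eventually_ge_atTop (max 1 u1)] with U hl he hs1 hU
  have hU1 : 1 ≤ U := le_trans (le_max_left _ _) hU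
  have hUu : u1 ≤ U := le_trans (le_max_right _ _) hU
  obtain ⟨T, hT⟩ : ∃ T : ℝ, T = Real.exp (k0 * s U) := ⟨_, rfl⟩
  have hks : 1 ≤ k0 * s U := by
    rw [div_le_iff₀ hk0pos] at hs1
    linarith
  have hT2 : 2 ≤ T := by
    rw [hT]
    have h1 : (1 : ℝ) + 1 ≤ Real.exp 1 := Real.add_one_le_exp 1
    have h2 : Real.exp 1 ≤ Real.exp (k0 * s U) := Real.exp_le_exp.2 hks
    linarith
  have hlogT : Real.log T = k0 * s U := by
    rw [hT, Real.log_exp]
  have hlow' : ∀ u, U ≤ u → u ≤ U + 1 → |EL T u| ≤ ε * U / 8 := by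
    intro u h1 h2
    have h3 := hlow T hT2 u (by linarith)
    rw [hlogT, mul_pow, hssq U hU1 hl] at h3
    have hlu : 1 + Real.log u ≤ 3 * Real.log U := by
      have h4 : Real.log u ≤ Real.log (2 * U) := Real.log_le_log (by linarith) (by linarith)
      have h5 : Real.log (2 * U) = Real.log 2 + Real.log U :=
        Real.log_mul (by norm_num) (by linarith)
      have h6 : Real.log 2 < 1 := by
        have := Real.log_two_lt_d9
        linarith
      linarith
    have hlp : 0 < Real.log U := by linarith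
    have h7 : C * (k0 ^ 2 * (U / Real.log U)) * (1 + Real.log u) ≤
        C * (k0 ^ 2 * (U / Real.log U)) * (3 * Real.log U) := by
      apply mul_le_mul_of_nonneg_left hlu
      positivity
    have h8 : C * (k0 ^ 2 * (U / Real.log U)) * (3 * Real.log U) = 3 * C * k0 ^ 2 * U := by
      field_simp
    have h9 : 3 * C * k0 ^ 2 * U ≤ 3 * (C + 1) * (ε / (48 * (C + 1))) * U := by
      apply mul_le_mul_of_nonneg_right _ (by linarith)
      calc 3 * C * k0 ^ 2 ≤ 3 * (C + 1) * k0 ^ 2 := by nlinarith [sq_nonneg k0]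
        _ ≤ 3 * (C + 1) * (ε / (48 * (C + 1))) :=
          mul_le_mul_of_nonneg_left hk0sq (by linarith)
    have h10 : 3 * (C + 1) * (ε / (48 * (C + 1))) * U = ε * U / 16 := by
      field_simp
      norm_num
    have h11 : 0 < ε * U := by positivity
    linarith
  have hkey : ∀ u, U ≤ u → u ≤ U + 1 → ε < |f u| → (ε * U / 2) ^ 2 ≤ (E u - EL T u) ^ 2 := by
    intro u h1 h2 h3
    have hup : 0 < u := by linarith
    have h4 : |r u| ≤ ε / 4 * u := by
      have h5 := hu1 u (by linarith)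
      rw [abs_div, abs_of_pos hup, div_le_iff₀ hup] at h5
      exact h5
    have h5 : u * |f u| ≤ |E u| + |r u| := by
      have h6 : u * f u = E u + r u := by
        rw [hEq u hup]
        ring
      calc u * |f u| = |u * f u| := by rw [abs_mul, abs_of_pos hup]
        _ = |E u + r u| := by rw [h6]
        _ ≤ |E u| + |r u| := abs_add_le _ _
    have h6 : u * ε ≤ u * |f u| := mul_le_mul_of_nonneg_left h3.le hup.le
    have h7 := hlow' u h1 h2
    have h8 : |E u| ≤ |E u - EL T u| + |EL T u| := by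
      calc |E u| = |(E u - EL T u) + EL T u| := by ring_nf
        _ ≤ |E u - EL T u| + |EL T u| := abs_add_le _ _
    have h9 : ε * U ≤ ε * u := mul_le_mul_of_nonneg_left h1 hε.le
    have h10 : ε * U / 2 ≤ |E u - EL T u| := by nlinarith
    have h11 : 0 ≤ ε * U / 2 := by positivity
    calc (ε * U / 2) ^ 2 ≤ |E u - EL T u| ^ 2 := pow_le_pow_left₀ h11 h10 2
      _ = (E u - EL T u) ^ 2 := sq_abs _
  obtain ⟨F, hF⟩ : ∃ F : ℝ → ENNReal, F = fun u => ENNReal.ofReal ((E u - EL T u) ^ 2) :=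
    ⟨_, rfl⟩
  have hFm : Measurable F := by
    rw [hF]
    exact ((hE.sub (hEL T)).pow_const 2).ennreal_ofReal
  obtain ⟨c0, hc0⟩ : ∃ c0 : ENNReal, c0 = ENNReal.ofReal ((ε * U / 2) ^ 2) := ⟨_, rfl⟩
  have hc0r : 0 < (ε * U / 2) ^ 2 := by positivity
  have hcheb := mul_meas_ge_le_lintegral₀ (μ := volume.restrict (Icc U (U + 1)))
    hFm.aemeasurable c0
  have hint : ∫⁻ u in Icc U (U + 1), F u ≤ ENNReal.ofReal (C * U ^ 4 / T ^ (1 / 2 : ℝ)) := by
    rw [hF]
    exact hhigh T hT2 U hU1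
  have hsub : volume {u : ℝ | U ≤ u ∧ u ≤ U + 1 ∧ ε < |f u|} ≤
      (volume.restrict (Icc U (U + 1))) {x | c0 ≤ F x} := by
    rw [Measure.restrict_apply' measurableSet_Icc]
    apply measure_mono
    intro u hu
    obtain ⟨h1, h2, h3⟩ := hu
    refine ⟨?_, h1, h2⟩
    change c0 ≤ F u
    rw [hc0, hF]
    exact ENNReal.ofReal_le_ofReal (hkey u h1 h2 h3)
  have hTr : T ^ (1 / 2 : ℝ) = Real.exp (k0 / 4 * s U) * Real.exp (k0 / 4 * s U) := by
    rw [hT, ← Real.exp_mul, ← Real.exp_add]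
    congr 1
    ring
  have hreal : C * U ^ 4 / T ^ (1 / 2 : ℝ) ≤
      (ε * U / 2) ^ 2 * Real.exp (-(k0 / 4 * Real.sqrt (U / Real.log U))) := by
    have hsU : Real.sqrt (U / Real.log U) = s U := by rw [hs]
    rw [hsU, hTr, Real.exp_neg]
    obtain ⟨X, hX⟩ : ∃ X : ℝ, X = Real.exp (k0 / 4 * s U) := ⟨_, rfl⟩
    have hXp : 0 < X := by
      rw [hX]
      exact Real.exp_pos _
    rw [← hX] at he ⊢
    rw [div_le_iff₀ (by positivity)]
    have h1 : (ε * U / 2) ^ 2 * X⁻¹ * (X * X) = (ε * U / 2) ^ 2 * X := by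
      field_simp
    rw [h1]
    have h2 : U ≤ 4 * s U ^ 4 := hs4 U hU1 hl
    have h3 : U ^ 2 ≤ (4 * s U ^ 4) ^ 2 := pow_le_pow_left₀ (by linarith) h2 2
    have h4 : 4 * C / ε ^ 2 * U ^ 2 ≤ X := by
      calc 4 * C / ε ^ 2 * U ^ 2 ≤ 4 * C / ε ^ 2 * (4 * s U ^ 4) ^ 2 :=
            mul_le_mul_of_nonneg_left h3 (by positivity)
        _ = 64 * C / ε ^ 2 * s U ^ 8 := by ring
        _ ≤ X := he
    have h5 : (ε * U / 2) ^ 2 * (4 * C / ε ^ 2 * U ^ 2) ≤ (ε * U / 2) ^ 2 * X :=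
      mul_le_mul_of_nonneg_left h4 hc0r.le
    have h6 : (ε * U / 2) ^ 2 * (4 * C / ε ^ 2 * U ^ 2) = C * U ^ 4 := by
      field_simp
      ring
    linarith
  have hfinal : c0 * volume {u : ℝ | U ≤ u ∧ u ≤ U + 1 ∧ ε < |f u|} ≤
      c0 * ENNReal.ofReal (Real.exp (-(k0 / 4 * Real.sqrt (U / Real.log U)))) := by
    calc c0 * volume {u : ℝ | U ≤ u ∧ u ≤ U + 1 ∧ ε < |f u|}
        ≤ c0 * (volume.restrict (Icc U (U + 1))) {x | c0 ≤ F x} := by gcongr
      _ ≤ ∫⁻ u in Icc U (U + 1), F u := hcheb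
      _ ≤ ENNReal.ofReal (C * U ^ 4 / T ^ (1 / 2 : ℝ)) := hint
      _ ≤ ENNReal.ofReal ((ε * U / 2) ^ 2 *
          Real.exp (-(k0 / 4 * Real.sqrt (U / Real.log U)))) := ENNReal.ofReal_le_ofReal hreal
      _ = c0 * ENNReal.ofReal (Real.exp (-(k0 / 4 * Real.sqrt (U / Real.log U)))) := by
          rw [hc0, ENNReal.ofReal_mul hc0r.le]
  have hc00 : c0 ≠ 0 := by
    rw [hc0]
    exact (ENNReal.ofReal_pos.2 hc0r).ne'
  have hc0t : c0 ≠ ⊤ := by
    rw [hc0]
    exact ENNReal.ofReal_ne_top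
  exact (ENNReal.mul_le_mul_iff_right hc00 hc0t).1 hfinal

end Pool.Agent.W101.SP
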